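import Pool.Agent.Zk39.MC.Def

/-!
# Bounded mean complexity passes to measures on the fibres
-/

set_option autoImplicit false

open Finset Filter Topology MeasureTheory

namespace Pool.Agent.Zk97.ME

open Pool.Agent.Zk39.MC

/-- the part of the `k`-th set outside the earlier ones -/
def part {X : Type} {K : ℕ} (C : Fin K → Set X) (k : Fin K) : Set X := C k \ ⋃ j ∈ {j | j < k}, C j

theorem measurableSet_part {X : Type} [MeasurableSpace X] {K : ℕ} {C : Fin K → Set X}
    (hC : ∀ k, MeasurableSet (C k)) (k : Fin K) : MeasurableSet (part C k) :=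
  (hC k).diff (MeasurableSet.biUnion (Set.to_countable _) fun j _ => hC j)

theorem exists_part {X : Type} {K : ℕ} (C : Fin K → Set X) {x : X} (h : ∃ k, x ∈ C k) :
    ∃ k, x ∈ part C k ∧ ∀ j, j ≠ k → x ∉ part C j := by
  classical
  obtain ⟨k0, hk0⟩ := h
  obtain ⟨k, hk, hmin⟩ := (Finset.univ.filter fun k => x ∈ C k).exists_min_image id ⟨k0, by simpa using hk0⟩
  have hk' : x ∈ C k := by simpa using hk
  have hmin' : ∀ j, x ∈ C j → k ≤ j := fun j hj => hmin j (by simpa using hj)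
  refine ⟨k, ⟨hk', ?_⟩, ?_⟩
  · simp only [Set.mem_iUnion, Set.mem_ofPred_eq, not_exists]
    intro j hj hx
    exact absurd (hmin' j hx) (not_le.2 hj)
  · intro j hj hx
    have h1 := hmin' j hx.1
    have h2 := hx.2
    simp only [Set.mem_iUnion, Set.mem_ofPred_eq, not_exists] at h2
    exact h2 k (lt_of_le_of_ne h1 (Ne.symm hj)) hk'

theorem measure_iterate {W X : Type} [MeasurableSpace X] {T : X → X} (hT : Measurable T) {T' : W → W}
    {μ : W → Measure X} (hmap : ∀ w, μ (T' w) = (μ w).map T) (m : ℕ) :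
    ∀ w, μ (T'^[m] w) = (μ w).map (T^[m]) := by
  induction m with
  | zero => intro w; simp
  | succ m ih =>
    intro w
    rw [Function.iterate_succ_apply', hmap, ih w, Measure.map_map hT (hT.iterate m), ← Function.iterate_succ']

theorem exists_center {X : Type} {K : ℕ} {Y : Type} {T : X → X} {π : X → Y} {F : X → ℂ} {C ε : ℝ} (hC : 0 ≤ C)
    (hF : ∀ x, ‖F x‖ ≤ C) {y : Y} {H : ℕ} {κ : X → Fin K}
    (hκ : ∀ x x', π x = y → π x' = y → κ x = κ x' → ∑ m ∈ range H, ‖F (T^[m] x) - F (T^[m] x')‖ ≤ ε) (k : Fin K) :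
    ∃ f : ℕ → ℂ, (∀ m, ‖f m‖ ≤ C) ∧ ∀ x, π x = y → κ x = k → ∑ m ∈ range H, ‖F (T^[m] x) - f m‖ ≤ ε := by
  by_cases h : ∃ x, π x = y ∧ κ x = k
  · obtain ⟨x0, hx0, hk0⟩ := h
    exact ⟨fun m => F (T^[m] x0), fun m => hF _, fun x hx hk => hκ x x0 hx hx0 (hk.trans hk0.symm)⟩
  · push Not at h
    exact ⟨fun _ => 0, fun _ => by simpa using hC, fun x hx hk => absurd hk (h x hx)⟩

/-- the integrals over the images of a measure on the fibre are given by the masses of the cells -/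
theorem integral_approx {X Y : Type} [TopologicalSpace X] [MeasurableSpace X] [BorelSpace X] {T : X → X}
    (hT : Continuous T) {π : X → Y} {ν : Measure X} [IsProbabilityMeasure ν] {y : Y} (hsupp : ∀ᵐ x ∂ν, π x = y)
    {F : X → ℂ} (hF : Continuous F) {C : ℝ} (hb : ∀ x, ‖F x‖ ≤ C) {H K : ℕ} {ε : ℝ} {κ : X → Fin K}
    {f : Fin K → ℕ → ℂ} (hf : ∀ x, π x = y → ∑ m ∈ range H, ‖F (T^[m] x) - f (κ x) m‖ ≤ ε)
    (A : Fin K → Set X) (hA : A = fun k => {x | ∑ m ∈ range H, ‖F (T^[m] x) - f k m‖ ≤ ε}) :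
    ∑ m ∈ range H, ‖∫ x, F x ∂(ν.map T^[m]) - ∑ k, (ν.real (part A k) : ℂ) * f k m‖ ≤ ε := by
  have hAc : ∀ k, MeasurableSet (A k) := by
    intro k
    have : IsClosed (A k) := by
      rw [hA]
      exact isClosed_le (continuous_finsetSum _ fun m _ => ((hF.comp (hT.iterate m)).sub continuous_const).norm)
        continuous_const
    exact this.measurableSet
  have hE := measurableSet_part hAc
  have hint : ∀ m, Integrable (fun x => F (T^[m] x)) ν := fun m =>
    Integrable.of_bound (hF.comp (hT.iterate m)).measurable.aestronglyMeasurable C (ae_of_all _ fun x => hb _)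
  have hind : ∀ m (k : Fin K), Integrable ((part A k).indicator fun _ => f k m) ν := fun m k =>
    (integrable_const _).indicator (hE k)
  have hsum : ∀ m, Integrable (fun x => ∑ k, (part A k).indicator (fun _ => f k m) x) ν := fun m =>
    integrable_finsetSum _ fun k _ => hind m k
  have key : ∀ m, ∫ x, F x ∂(ν.map T^[m]) - ∑ k, (ν.real (part A k) : ℂ) * f k m =
      ∫ x, (F (T^[m] x) - ∑ k, (part A k).indicator (fun _ => f k m) x) ∂ν := by
    intro m
    rw [integral_sub (hint m) (hsum m), integral_finsetSum _ fun k _ => hind m k,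
      integral_map (hT.iterate m).measurable.aemeasurable hF.measurable.aestronglyMeasurable]
    congr 1
    refine Finset.sum_congr rfl fun k _ => ?_
    rw [integral_indicator_const _ (hE k)]
    simp
  have hnorm : ∀ m, Integrable (fun x => ‖F (T^[m] x) - ∑ k, (part A k).indicator (fun _ => f k m) x‖) ν := fun m =>
    ((hint m).sub (hsum m)).norm
  calc ∑ m ∈ range H, ‖∫ x, F x ∂(ν.map T^[m]) - ∑ k, (ν.real (part A k) : ℂ) * f k m‖
      ≤ ∑ m ∈ range H, ∫ x, ‖F (T^[m] x) - ∑ k, (part A k).indicator (fun _ => f k m) x‖ ∂ν := by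
        refine Finset.sum_le_sum fun m _ => ?_
        rw [key m]
        exact norm_integral_le_integral_norm _
    _ = ∫ x, ∑ m ∈ range H, ‖F (T^[m] x) - ∑ k, (part A k).indicator (fun _ => f k m) x‖ ∂ν :=
        (integral_finsetSum _ fun m _ => hnorm m).symm
    _ ≤ ∫ _, ε ∂ν := by
        refine integral_mono_ae (integrable_finsetSum _ fun m _ => hnorm m) (integrable_const _) ?_
        filter_upwards [hsupp] with x hx
        obtain ⟨k, hk, hk'⟩ := exists_part A (x := x) ⟨κ x, by rw [hA]; exact hf x hx⟩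
        have h1 : x ∈ A k := hk.1
        have h2 : ∀ m, ∑ j, (part A j).indicator (fun _ => f j m) x = f k m := by
          intro m
          rw [Finset.sum_eq_single k]
          · rw [Set.indicator_of_mem hk]
          · intro j _ hj
            rw [Set.indicator_of_notMem (hk' j hj)]
          · intro h; exact absurd (Finset.mem_univ k) h
        simp only [h2]
        rw [hA] at h1
        exact h1
    _ = ε := by simp

theorem bdd_measures {W X Y : Type} [TopologicalSpace X] [MeasurableSpace X] [BorelSpace X] [TopologicalSpace Y]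
    {S : Y → Y} {P : Set Y} {T : X → X} {π : X → Y} (hT : Continuous T) {T' : W → W} {ρ : W → Y}
    (μ : W → MeasureTheory.Measure X) (hprob : ∀ w, MeasureTheory.IsProbabilityMeasure (μ w))
    (hsupp : ∀ w, ∀ᵐ x ∂(μ w), π x = ρ w) (hmap : ∀ w, μ (T' w) = (μ w).map T) {F : X → ℂ} (hF : Continuous F)
    (hb : ∃ C, ∀ x, ‖F x‖ ≤ C) (h : Bdd S P T π F) : Bdd S P T' ρ (fun w => ∫ x, F x ∂(μ w)) := by
  classical
  obtain ⟨C0, hC0⟩ := hb
  obtain ⟨C, hC, hb⟩ : ∃ C : ℝ, 0 ≤ C ∧ ∀ x, ‖F x‖ ≤ C :=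
    ⟨max C0 0, le_max_right _ _, fun x => (hC0 x).trans (le_max_left _ _)⟩
  intro δ hδ
  have hδ3 : 0 < δ / 3 := by positivity
  obtain ⟨K, G, hG, ⟨N₀, hN₀⟩, hK⟩ := h (δ / 3) hδ3
  obtain ⟨L, hL⟩ := exists_nat_gt (K * C / (δ / 3))
  have hLpos : (0 : ℝ) < L := lt_of_le_of_lt (by positivity) hL
  have hL' : (K : ℝ) * C / L ≤ δ / 3 := by
    rw [div_le_iff₀ hLpos]
    rw [div_lt_iff₀ hδ3] at hL
    nlinarith
  refine ⟨Fintype.card (Fin K → Fin (L + 1)), G, hG, ⟨N₀, fun N hN y hy => ?_⟩, ?_⟩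
  · obtain ⟨V, hV, hc⟩ := hN₀ N hN y hy
    refine ⟨V, hV, hc.trans ?_⟩
    have : (0 : ℝ) ≤ N := Nat.cast_nonneg _
    nlinarith
  intro H y hy
  obtain ⟨κ, hκ⟩ := hK H y hy
  choose f hfC hf using exists_center hC hb hκ
  have hf' : ∀ x, π x = y → ∑ m ∈ range H, ‖F (T^[m] x) - f (κ x) m‖ ≤ δ / 3 * H := fun x hx => hf (κ x) x hx rfl
  set A : Fin K → Set X := fun k => {x | ∑ m ∈ range H, ‖F (T^[m] x) - f k m‖ ≤ δ / 3 * H} with hA
  let p : W → Fin K → ℝ := fun w k => (μ w).real (part A k)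
  have hp0 : ∀ w k, 0 ≤ p w k := fun w k => measureReal_nonneg
  have hp1 : ∀ w k, p w k ≤ 1 := fun w k => by
    have := hprob w
    exact measureReal_le_one
  have hpL : ∀ w k, ⌊(L : ℝ) * p w k⌋₊ < L + 1 := by
    intro w k
    rw [Nat.lt_succ_iff]
    apply Nat.floor_le_of_le
    nlinarith [hp1 w k]
  refine ⟨fun w => Fintype.equivFin (Fin K → Fin (L + 1)) fun k => ⟨⌊(L : ℝ) * p w k⌋₊, hpL w k⟩, ?_⟩
  intro w w' hw hw' hww
  have hww' := (Fintype.equivFin (Fin K → Fin (L + 1))).injective hww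
  have hclose : ∀ k, |p w k - p w' k| ≤ 1 / L := by
    intro k
    have h1 : ⌊(L : ℝ) * p w k⌋₊ = ⌊(L : ℝ) * p w' k⌋₊ := by
      have := congrFun hww' k
      simpa using this
    have h2 := Nat.floor_le (mul_nonneg hLpos.le (hp0 w k))
    have h3 := Nat.lt_floor_add_one ((L : ℝ) * p w k)
    have h4 := Nat.floor_le (mul_nonneg hLpos.le (hp0 w' k))
    have h5 := Nat.lt_floor_add_one ((L : ℝ) * p w' k)
    rw [h1] at h2 h3
    have h6 : |(L : ℝ) * p w k - L * p w' k| ≤ 1 := by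
      rw [abs_le]
      constructor <;> linarith
    rw [← mul_sub, abs_mul, abs_of_pos hLpos] at h6
    rw [le_div_iff₀ hLpos, mul_comm]
    exact h6
  have hstep : ∀ w, ρ w = y → ∑ m ∈ range H, ‖∫ x, F x ∂(μ (T'^[m] w)) - ∑ k, (p w k : ℂ) * f k m‖ ≤ δ / 3 * H := by
    intro w hw
    have := hprob w
    have hs : ∀ᵐ x ∂(μ w), π x = y := by simpa [hw] using hsupp w
    have := integral_approx hT hs hF hb hf' A hA
    simpa only [measure_iterate hT.measurable hmap] using this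
  have hmid : ∀ m, ‖∑ k, (p w k : ℂ) * f k m - ∑ k, (p w' k : ℂ) * f k m‖ ≤ δ / 3 := by
    intro m
    calc ‖∑ k, (p w k : ℂ) * f k m - ∑ k, (p w' k : ℂ) * f k m‖
        = ‖∑ k, ((p w k - p w' k : ℝ) : ℂ) * f k m‖ := by
          rw [← Finset.sum_sub_distrib]
          congr 1
          refine Finset.sum_congr rfl fun k _ => ?_
          push_cast
          ring
      _ ≤ ∑ k : Fin K, (1 / L : ℝ) * C := by
          refine (norm_sum_le _ _).trans (Finset.sum_le_sum fun k _ => ?_)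
          rw [norm_mul, Complex.norm_real, Real.norm_eq_abs]
          exact mul_le_mul (hclose k) (hfC k m) (norm_nonneg _) (by positivity)
      _ = K * C / L := by
          rw [Finset.sum_const, Finset.card_univ, Fintype.card_fin, nsmul_eq_mul]
          ring
      _ ≤ δ / 3 := hL'
  calc ∑ m ∈ range H, ‖∫ x, F x ∂(μ (T'^[m] w)) - ∫ x, F x ∂(μ (T'^[m] w'))‖
      ≤ ∑ m ∈ range H, (‖∫ x, F x ∂(μ (T'^[m] w)) - ∑ k, (p w k : ℂ) * f k m‖ + δ / 3 +
          ‖∫ x, F x ∂(μ (T'^[m] w')) - ∑ k, (p w' k : ℂ) * f k m‖) := by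
        refine Finset.sum_le_sum fun m _ => ?_
        have e : ∫ x, F x ∂(μ (T'^[m] w)) - ∫ x, F x ∂(μ (T'^[m] w')) =
            (∫ x, F x ∂(μ (T'^[m] w)) - ∑ k, (p w k : ℂ) * f k m) +
            (∑ k, (p w k : ℂ) * f k m - ∑ k, (p w' k : ℂ) * f k m) -
            (∫ x, F x ∂(μ (T'^[m] w')) - ∑ k, (p w' k : ℂ) * f k m) := by ring
        rw [e]
        refine (norm_sub_le _ _).trans (add_le_add_left ?_ _)
        exact (norm_add_le _ _).trans (add_le_add_right (hmid m) _)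
    _ = ∑ m ∈ range H, ‖∫ x, F x ∂(μ (T'^[m] w)) - ∑ k, (p w k : ℂ) * f k m‖ + δ / 3 * H +
          ∑ m ∈ range H, ‖∫ x, F x ∂(μ (T'^[m] w')) - ∑ k, (p w' k : ℂ) * f k m‖ := by
        rw [Finset.sum_add_distrib, Finset.sum_add_distrib, Finset.sum_const, card_range, nsmul_eq_mul]
        ring
    _ ≤ δ * H := by
        have h1 := hstep w hw
        have h2 := hstep w' hw'
        linarith

end Pool.Agent.Zk97.ME
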